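import Pool.Agent.BOG.Stmts

/-! MP_9a4f8a_co, row EDA (helper62): the dimensions of the spaces `EE j`. -/

set_option autoImplicit false

namespace Pool.Agent.BOG.H62

open Polynomial Finset Pool.Agent.BOG

universe v

variable {K : Type v} [Field K]

theorem mem_lt {f : K[X]} {n : ℕ} : f ∈ degreeLT K n ↔ ∀ l, n ≤ l → f.coeff l = 0 := by
  rw [mem_degreeLT, degree_lt_iff_coeff_zero]

/-- multiplication by the variable -/
noncomputable def mX : (Fin 3 → K[X]) →ₗ[K] (Fin 3 → K[X]) where
  toFun θ := fun a => X * θ a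
  map_add' θ φ := by
    funext a
    simp [mul_add]
  map_smul' r θ := by
    funext a
    simp

theorem mX_inj : Function.Injective (mX : (Fin 3 → K[X]) →ₗ[K] (Fin 3 → K[X])) := by
  intro θ φ h
  funext a
  have h1 : X * θ a = X * φ a := congrFun h a
  exact mul_left_cancel₀ X_ne_zero h1

theorem dot1_mX (m c : K) (θ : Fin 3 → K[X]) : dot1 m c (mX θ) = X * dot1 m c θ := by
  show X * θ 0 - C m * (X * θ 1) - C c * (X * θ 2) = X * (θ 0 - C m * θ 1 - C c * θ 2)
  ring

variable {n : ℕ} (m c : Fin n → K) (ν : ℕ)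

theorem ee_mono (j : ℕ) : EE m c ν j ≤ EE m c ν (j + 1) := by
  rintro θ ⟨h1, h2⟩
  exact ⟨fun a => degreeLT_mono (Nat.le_succ j) (h1 a), h2⟩

theorem map_le (j : ℕ) : (EE m c ν j).map mX ≤ EE m c ν (j + 1) := by
  rintro _ ⟨θ, ⟨h1, h2⟩, rfl⟩
  refine ⟨fun a => ?_, fun P => ?_⟩
  · show X * θ a ∈ _
    rw [mem_lt]
    intro l hl
    obtain ⟨l, rfl⟩ : ∃ l', l = l' + 1 := ⟨l - 1, by omega⟩
    rw [coeff_X_mul]
    exact mem_lt.1 (h1 a) l (by omega)
  · rw [dot1_mX]
    exact Dvd.dvd.mul_left (h2 P) _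

theorem inf_le (j : ℕ) : EE m c ν (j + 1) ⊓ (EE m c ν (j + 1)).map mX ≤ (EE m c ν j).map mX := by
  rintro _ ⟨⟨h3, -⟩, θ, ⟨h1, h2⟩, rfl⟩
  refine ⟨θ, ⟨fun a => ?_, h2⟩, rfl⟩
  rw [mem_lt]
  intro l hl
  have h4 : (X * θ a).coeff (l + 1) = 0 := mem_lt.1 (h3 a) (l + 1) (by omega)
  rwa [coeff_X_mul] at h4

theorem finrank_mX (S : Submodule K (Fin 3 → K[X])) :
    Module.finrank K (S.map mX) = Module.finrank K S :=
  (Submodule.equivMapOfInjective mX mX_inj S).finrank_eq.symm

theorem eda (hF : FdmStmt.{v}) : EdaStmt.{v} := by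
  intro K _ n m c ν
  have hfin : ∀ j, Module.Finite K (EE m c ν j) := fun j => (hF K n m c ν j).1
  refine ⟨?_, fun j => ?_, fun j => ?_⟩
  · have h1 : EE m c ν 0 = ⊥ := by
      rw [eq_bot_iff]
      rintro θ ⟨h1, -⟩
      rw [Submodule.mem_bot]
      funext a
      ext l
      exact mem_lt.1 (h1 a) l (Nat.zero_le l)
    rw [h1]
    exact finrank_bot K _
  · have := hfin (j + 1)
    have := hfin j
    let L : EE m c ν (j + 1) →ₗ[K] (Fin 3 → K) :=
      { toFun := fun θ a => (θ.1 a).coeff j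
        map_add' := fun θ φ => by
          funext a
          simp
        map_smul' := fun r θ => by
          funext a
          simp }
    have h1 := L.finrank_range_add_finrank_ker
    have h2 : Module.finrank K (LinearMap.range L) ≤ 3 := by
      have h3 := Submodule.finrank_le (LinearMap.range L)
      rwa [Module.finrank_fin_fun] at h3
    have h3 : Module.finrank K (LinearMap.ker L) ≤ Module.finrank K (EE m c ν j) := by
      have h4 : (LinearMap.ker L).map (EE m c ν (j + 1)).subtype ≤ EE m c ν j := by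
        rintro _ ⟨θ, hθ, rfl⟩
        refine ⟨fun a => ?_, θ.2.2⟩
        rw [mem_lt]
        intro l hl
        rcases hl.eq_or_lt with h5 | h5
        · rw [← h5]
          exact congrFun (LinearMap.mem_ker.1 hθ) a
        · exact mem_lt.1 (θ.2.1 a) l (by omega)
      have h5 := Submodule.finrank_mono h4
      rwa [← (Submodule.equivMapOfInjective (EE m c ν (j + 1)).subtype
        (Submodule.injective_subtype _) (LinearMap.ker L)).finrank_eq] at h5
    omega
  · have := hfin (j + 2)
    have := hfin (j + 1)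
    have := hfin j
    have h1 := Submodule.finrank_sup_add_finrank_inf_eq (EE m c ν (j + 1))
      ((EE m c ν (j + 1)).map mX)
    rw [finrank_mX] at h1
    have h2 : Module.finrank K ↥(EE m c ν (j + 1) ⊔ (EE m c ν (j + 1)).map mX) ≤
        Module.finrank K (EE m c ν (j + 2)) :=
      Submodule.finrank_mono (sup_le (ee_mono m c ν (j + 1)) (map_le m c ν (j + 1)))
    have h3 : Module.finrank K ↥(EE m c ν (j + 1) ⊓ (EE m c ν (j + 1)).map mX) ≤
        Module.finrank K (EE m c ν j) := by
      have h4 := Submodule.finrank_mono (inf_le m c ν j)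
      rwa [finrank_mX] at h4
    omega

end Pool.Agent.BOG.H62
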